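import Pool.Agent.Work.MP_88b7aa_gt.D.C3_3_4.Root
import Pool.Agent.Work.MP_88b7aa_gt.D.C3_4_4.Root
import Pool.Agent.Work.MP_88b7aa_gt.D.C3_5_5.Root
import Pool.Agent.Work.MP_88b7aa_gt.D.C3_6_6.Root
import Pool.Agent.Work.MP_88b7aa_gt.D.C444.Root
import Pool.Agent.Work.MP_88b7aa_gt.D.C445.Root
import Pool.Agent.Work.MP_88b7aa_gt.D.C446.Root
import Pool.Agent.Work.MP_88b7aa_gt.D.C447.Root
import Pool.Agent.Work.MP_88b7aa_gt.D.C448.Root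
import Pool.Agent.Work.MP_88b7aa_gt.D.C449.Root
import Pool.Agent.Work.MP_88b7aa_gt.D.C455.Root
import Pool.Agent.Work.MP_88b7aa_gt.D.C456.Root
import Pool.Agent.Work.MP_88b7aa_gt.D.C457.Root
import Pool.Agent.Work.MP_88b7aa_gt.D.C458.Root
import Pool.Agent.Work.MP_88b7aa_gt.D.C459.Root
import Pool.Agent.Work.MP_88b7aa_gt.D.C466.Root
import Pool.Agent.Work.MP_88b7aa_gt.D.C467.Root
import Pool.Agent.Work.MP_88b7aa_gt.D.C468.Root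
import Pool.Agent.Work.MP_88b7aa_gt.D.C469.Root
import Pool.Agent.Work.MP_88b7aa_gt.D.C477.Root
import Pool.Agent.Work.MP_88b7aa_gt.D.C478.Root
import Pool.Agent.Work.MP_88b7aa_gt.D.C479.Root
import Pool.Agent.Work.MP_88b7aa_gt.D.C488.Root
import Pool.Agent.Work.MP_88b7aa_gt.D.C489.Root
import Pool.Agent.Work.MP_88b7aa_gt.D.C499.Root
import Pool.Agent.Work.MP_88b7aa_gt.D.C555.Root
import Pool.Agent.Work.MP_88b7aa_gt.D.C556.Root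
import Pool.Agent.Work.MP_88b7aa_gt.D.C557.Root
import Pool.Agent.Work.MP_88b7aa_gt.D.C558.Root
import Pool.Agent.Work.MP_88b7aa_gt.D.C559.Root
import Pool.Agent.Work.MP_88b7aa_gt.D.C566.Root
import Pool.Agent.Work.MP_88b7aa_gt.D.C567.Root
import Pool.Agent.Work.MP_88b7aa_gt.D.C568.Root
import Pool.Agent.Work.MP_88b7aa_gt.D.C569.Root
import Pool.Agent.Work.MP_88b7aa_gt.D.C577.Root
import Pool.Agent.Work.MP_88b7aa_gt.D.C578.Root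
import Pool.Agent.Work.MP_88b7aa_gt.D.C579.Root
import Pool.Agent.Work.MP_88b7aa_gt.D.C588.Root
import Pool.Agent.Work.MP_88b7aa_gt.D.C589.Root
import Pool.Agent.Work.MP_88b7aa_gt.D.C599.Root
import Pool.Agent.Work.MP_88b7aa_gt.D.C666.Root
import Pool.Agent.Work.MP_88b7aa_gt.D.C667.Root
import Pool.Agent.Work.MP_88b7aa_gt.D.C668.Root
import Pool.Agent.Work.MP_88b7aa_gt.D.C669.Root
import Pool.Agent.Work.MP_88b7aa_gt.D.C677.Root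
import Pool.Agent.Work.MP_88b7aa_gt.D.C678.Root
import Pool.Agent.Work.MP_88b7aa_gt.D.C679.Root
import Pool.Agent.Work.MP_88b7aa_gt.D.C688.Root
import Pool.Agent.Work.MP_88b7aa_gt.D.C689.Root
import Pool.Agent.Work.MP_88b7aa_gt.D.C699.Root
import Pool.Agent.Work.MP_88b7aa_gt.D.C777.Root
import Pool.Agent.Work.MP_88b7aa_gt.D.C778.Root
import Pool.Agent.Work.MP_88b7aa_gt.D.C779.Root
import Pool.Agent.Work.MP_88b7aa_gt.D.C788.Root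
import Pool.Agent.Work.MP_88b7aa_gt.D.C789.Root
import Pool.Agent.Work.MP_88b7aa_gt.D.C799.Root
import Pool.Agent.Work.MP_88b7aa_gt.D.C888.Root
import Pool.Agent.Work.MP_88b7aa_gt.D.C889.Root
import Pool.Agent.Work.MP_88b7aa_gt.D.C899.Root
import Pool.Agent.Work.MP_88b7aa_gt.D.P10_10_10.Root
import Pool.Agent.Work.MP_88b7aa_gt.D.P10_10_11i.Root
import Pool.Agent.Work.MP_88b7aa_gt.D.P10_11_11i.Root
import Pool.Agent.Work.MP_88b7aa_gt.D.P10_12_12i.Root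
import Pool.Agent.Work.MP_88b7aa_gt.D.P10_13i_13i.Root
import Pool.Agent.Work.MP_88b7aa_gt.D.P11_11_11i.Root
import Pool.Agent.Work.MP_88b7aa_gt.D.P11_12_12i.Root
import Pool.Agent.Work.MP_88b7aa_gt.D.P11_13i_13i.Root
import Pool.Agent.Work.MP_88b7aa_gt.D.P12_12_12i.Root
import Pool.Agent.Work.MP_88b7aa_gt.D.P12_13i_13i.Root
import Pool.Agent.Work.MP_88b7aa_gt.D.P13_13i_13i.Root
import Pool.Agent.Work.MP_88b7aa_gt.D.P14_14i_14i.Root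
import Pool.Agent.Work.MP_88b7aa_gt.D.P15_15i_15i.Root
import Pool.Agent.Work.MP_88b7aa_gt.D.P16i_16i_16i.Root
import Pool.Agent.Work.MP_88b7aa_gt.D.P9_10i_10i.Root
import Pool.Agent.Work.MP_88b7aa_gt.D.P9_9_10i.Root
import Pool.Agent.Work.MP_88b7aa_gt.D.P9_9_9.Root
import Pool.Agent.Work.MP_88b7aa_gt.PQ.Uni

/-!
# All classes
-/

set_option autoImplicit false

namespace Pool.Agent.Work.MP_88b7aa_gt.D

open Pool.Agent.Work.MP_88b7aa_gt.PQ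

/-- The classes of orders. -/
def L : List C3 := [⟨.ex 3, .ex 3, .iv 4 0⟩,
  ⟨.ex 3, .ex 4, .iv 4 0⟩,
  ⟨.ex 3, .ex 5, .iv 5 0⟩,
  ⟨.ex 3, .iv 6 0, .iv 6 0⟩,
  ⟨.ex 4, .ex 4, .ex 4⟩,
  ⟨.ex 4, .ex 4, .ex 5⟩,
  ⟨.ex 4, .ex 4, .ex 6⟩,
  ⟨.ex 4, .ex 4, .ex 7⟩,
  ⟨.ex 4, .ex 4, .ex 8⟩,
  ⟨.ex 4, .ex 4, .iv 9 0⟩,
  ⟨.ex 4, .ex 5, .ex 5⟩,
  ⟨.ex 4, .ex 5, .ex 6⟩,
  ⟨.ex 4, .ex 5, .ex 7⟩,
  ⟨.ex 4, .ex 5, .ex 8⟩,
  ⟨.ex 4, .ex 5, .iv 9 0⟩,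
  ⟨.ex 4, .ex 6, .ex 6⟩,
  ⟨.ex 4, .ex 6, .ex 7⟩,
  ⟨.ex 4, .ex 6, .ex 8⟩,
  ⟨.ex 4, .ex 6, .iv 9 0⟩,
  ⟨.ex 4, .ex 7, .ex 7⟩,
  ⟨.ex 4, .ex 7, .ex 8⟩,
  ⟨.ex 4, .ex 7, .iv 9 0⟩,
  ⟨.ex 4, .ex 8, .ex 8⟩,
  ⟨.ex 4, .ex 8, .iv 9 0⟩,
  ⟨.ex 4, .iv 9 0, .iv 9 0⟩,
  ⟨.ex 5, .ex 5, .ex 5⟩,
  ⟨.ex 5, .ex 5, .ex 6⟩,
  ⟨.ex 5, .ex 5, .ex 7⟩,
  ⟨.ex 5, .ex 5, .ex 8⟩,
  ⟨.ex 5, .ex 5, .iv 9 0⟩,
  ⟨.ex 5, .ex 6, .ex 6⟩,
  ⟨.ex 5, .ex 6, .ex 7⟩,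
  ⟨.ex 5, .ex 6, .ex 8⟩,
  ⟨.ex 5, .ex 6, .iv 9 0⟩,
  ⟨.ex 5, .ex 7, .ex 7⟩,
  ⟨.ex 5, .ex 7, .ex 8⟩,
  ⟨.ex 5, .ex 7, .iv 9 0⟩,
  ⟨.ex 5, .ex 8, .ex 8⟩,
  ⟨.ex 5, .ex 8, .iv 9 0⟩,
  ⟨.ex 5, .iv 9 0, .iv 9 0⟩,
  ⟨.ex 6, .ex 6, .ex 6⟩,
  ⟨.ex 6, .ex 6, .ex 7⟩,
  ⟨.ex 6, .ex 6, .ex 8⟩,
  ⟨.ex 6, .ex 6, .iv 9 0⟩,
  ⟨.ex 6, .ex 7, .ex 7⟩,
  ⟨.ex 6, .ex 7, .ex 8⟩,
  ⟨.ex 6, .ex 7, .iv 9 0⟩,
  ⟨.ex 6, .ex 8, .ex 8⟩,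
  ⟨.ex 6, .ex 8, .iv 9 0⟩,
  ⟨.ex 6, .iv 9 0, .iv 9 0⟩,
  ⟨.ex 7, .ex 7, .ex 7⟩,
  ⟨.ex 7, .ex 7, .ex 8⟩,
  ⟨.ex 7, .ex 7, .iv 9 0⟩,
  ⟨.ex 7, .ex 8, .ex 8⟩,
  ⟨.ex 7, .ex 8, .iv 9 0⟩,
  ⟨.ex 7, .iv 9 0, .iv 9 0⟩,
  ⟨.ex 8, .ex 8, .ex 8⟩,
  ⟨.ex 8, .ex 8, .iv 9 0⟩,
  ⟨.ex 8, .iv 9 0, .iv 9 0⟩,
  ⟨.ex 10, .ex 10, .ex 10⟩,
  ⟨.ex 10, .ex 10, .iv 11 0⟩,
  ⟨.ex 10, .ex 11, .iv 11 0⟩,
  ⟨.ex 10, .ex 12, .iv 12 0⟩,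
  ⟨.ex 10, .iv 13 0, .iv 13 0⟩,
  ⟨.ex 11, .ex 11, .iv 11 0⟩,
  ⟨.ex 11, .ex 12, .iv 12 0⟩,
  ⟨.ex 11, .iv 13 0, .iv 13 0⟩,
  ⟨.ex 12, .ex 12, .iv 12 0⟩,
  ⟨.ex 12, .iv 13 0, .iv 13 0⟩,
  ⟨.ex 13, .iv 13 0, .iv 13 0⟩,
  ⟨.ex 14, .iv 14 0, .iv 14 0⟩,
  ⟨.ex 15, .iv 15 0, .iv 15 0⟩,
  ⟨.iv 16 0, .iv 16 0, .iv 16 0⟩,
  ⟨.ex 9, .iv 10 0, .iv 10 0⟩,
  ⟨.ex 9, .ex 9, .iv 10 0⟩,
  ⟨.ex 9, .ex 9, .ex 9⟩]

theorem all : All L :=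
  All.cons C3_3_4.done <|
  All.cons C3_4_4.done <|
  All.cons C3_5_5.done <|
  All.cons C3_6_6.done <|
  All.cons C444.done <|
  All.cons C445.done <|
  All.cons C446.done <|
  All.cons C447.done <|
  All.cons C448.done <|
  All.cons C449.done <|
  All.cons C455.done <|
  All.cons C456.done <|
  All.cons C457.done <|
  All.cons C458.done <|
  All.cons C459.done <|
  All.cons C466.done <|
  All.cons C467.done <|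
  All.cons C468.done <|
  All.cons C469.done <|
  All.cons C477.done <|
  All.cons C478.done <|
  All.cons C479.done <|
  All.cons C488.done <|
  All.cons C489.done <|
  All.cons C499.done <|
  All.cons C555.done <|
  All.cons C556.done <|
  All.cons C557.done <|
  All.cons C558.done <|
  All.cons C559.done <|
  All.cons C566.done <|
  All.cons C567.done <|
  All.cons C568.done <|
  All.cons C569.done <|
  All.cons C577.done <|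
  All.cons C578.done <|
  All.cons C579.done <|
  All.cons C588.done <|
  All.cons C589.done <|
  All.cons C599.done <|
  All.cons C666.done <|
  All.cons C667.done <|
  All.cons C668.done <|
  All.cons C669.done <|
  All.cons C677.done <|
  All.cons C678.done <|
  All.cons C679.done <|
  All.cons C688.done <|
  All.cons C689.done <|
  All.cons C699.done <|
  All.cons C777.done <|
  All.cons C778.done <|
  All.cons C779.done <|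
  All.cons C788.done <|
  All.cons C789.done <|
  All.cons C799.done <|
  All.cons C888.done <|
  All.cons C889.done <|
  All.cons C899.done <|
  All.cons P10_10_10.done <|
  All.cons P10_10_11i.done <|
  All.cons P10_11_11i.done <|
  All.cons P10_12_12i.done <|
  All.cons P10_13i_13i.done <|
  All.cons P11_11_11i.done <|
  All.cons P11_12_12i.done <|
  All.cons P11_13i_13i.done <|
  All.cons P12_12_12i.done <|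
  All.cons P12_13i_13i.done <|
  All.cons P13_13i_13i.done <|
  All.cons P14_14i_14i.done <|
  All.cons P15_15i_15i.done <|
  All.cons P16i_16i_16i.done <|
  All.cons P9_10i_10i.done <|
  All.cons P9_9_10i.done <|
  All.cons P9_9_9.done <|
  All.nil

/-- Every triple of orders is done. -/
theorem done : Done fun _ _ _ => True := All.done all (by decide +kernel) (by decide +kernel)


end Pool.Agent.Work.MP_88b7aa_gt.D
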